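import Pool.Agent.HMT.Stmts

/-!
# HCI and CPL
-/

set_option autoImplicit false

namespace Pool.Agent.HMT.H84

open Pool.Agent.HMT

/-- transport of equivalence relations -/
def stEq {V W : Type} (e : V ≃ W) : Setoid V ≃ Setoid W where
  toFun π := π.comap e.symm
  invFun ρ := ρ.comap e
  left_inv π := by
    ext a b
    simp [Setoid.comap_rel]
  right_inv ρ := by
    ext a b
    simp [Setoid.comap_rel]

theorem hci : HciStmt := by
  intro P V W _ _ G H h i
  obtain ⟨e⟩ := h
  unfold hc
  apply Nat.card_congr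
  apply Equiv.subtypeEquiv (stEq e.toEquiv)
  intro π
  have h1 : Nat.card (Quotient (stEq e.toEquiv π)) = Nat.card (Quotient π) :=
    Nat.card_congr (Quotient.congr e.toEquiv.symm (fun a b => Iff.rfl))
  have h2 : (∀ v, P.mem (G.induce {w | π.r w v})) ↔
      ∀ v, P.mem (H.induce {w | (stEq e.toEquiv π).r w v}) := by
    rw [e.toEquiv.symm.surjective.forall]
    apply forall_congr'
    intro v
    apply P.iso
    refine ⟨⟨e.toEquiv.subtypeEquiv ?_, ?_⟩⟩
    · intro w
      show π.r w (e.toEquiv.symm v) ↔ π.r (e.toEquiv.symm (e.toEquiv w)) (e.toEquiv.symm v)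
      rw [Equiv.symm_apply_apply]
    · intro a b
      exact e.map_rel_iff
  rw [h1, h2]

theorem hc_compl (P : GProp) {V : Type} [Finite V] (G : SimpleGraph V) (i : ℕ) :
    hc P Gᶜ i = hc P.co G i := by
  unfold hc
  apply Nat.card_congr
  apply Equiv.subtypeEquivRight
  intro π
  apply and_congr Iff.rfl
  apply forall_congr'
  intro v
  have h1 : Gᶜ.induce {w | π.r w v} = (G.induce {w | π.r w v})ᶜ := by
    ext a b
    simp only [SimpleGraph.comap_adj, SimpleGraph.compl_adj, Function.Embedding.subtype_apply]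
    constructor
    · rintro ⟨h2, h3⟩
      exact ⟨fun h4 => h2 (congrArg Subtype.val h4), h3⟩
    · rintro ⟨h2, h3⟩
      exact ⟨fun h4 => h2 (Subtype.ext h4), h3⟩
  rw [h1]
  rfl

theorem harary_compl (P : GProp) {V : Type} [Finite V] (G : SimpleGraph V) :
    harary P Gᶜ = harary P.co G := by
  unfold harary
  simp only [hc_compl]

theorem cpl : CplStmt := by
  intro P h N
  obtain ⟨n, hn, G, H, hGH, hpol⟩ := h N
  refine ⟨n, hn, Gᶜ, Hᶜ, ?_, ?_⟩
  · rintro ⟨φ⟩
    apply hGH
    refine ⟨⟨φ.toEquiv, ?_⟩⟩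
    intro a b
    have h1 : Hᶜ.Adj (φ.toEquiv a) (φ.toEquiv b) ↔ Gᶜ.Adj a b := φ.map_rel_iff
    rw [SimpleGraph.compl_adj, SimpleGraph.compl_adj] at h1
    by_cases hab : a = b
    · subst hab
      simp
    · have h2 : φ.toEquiv a ≠ φ.toEquiv b := fun h3 => hab (φ.toEquiv.injective h3)
      tauto
  · rw [harary_compl, harary_compl]
    exact hpol

end Pool.Agent.HMT.H84
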